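import Pool.Agent.H4.FV.OddU

set_option autoImplicit false
set_option linter.unusedVariables false

/-! Change of the index types of a presentation. -/

namespace Pool.Agent.H224.FV

open Pool.Agent.H4.FV.Odd

/-- linear combinations of a reindexed family -/
theorem lin_map {p : ℕ} {A : Type} [NonUnitalNonAssocRing A] [Module (ZMod p) A] {B B' : Type}
    (s : B → A) (f : B' ≃ B) (c : B' →₀ ZMod p) :
    Finsupp.linearCombination (ZMod p) (fun b => s (f b)) c =
      Finsupp.linearCombination (ZMod p) s (Finsupp.equivMapDomain f c) := by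
  rw [Finsupp.equivMapDomain_eq_mapDomain, Finsupp.linearCombination_mapDomain]
  rfl

/-- bilinear combinations of a reindexed family -/
theorem bil_map {p : ℕ} {A : Type} [NonUnitalNonAssocRing A] [Module (ZMod p) A] {B B' : Type}
    (s : B → A) (f : B' ≃ B) (M : (B' × B') →₀ ZMod p) :
    bil p (fun b => s (f b)) M = bil p s (Finsupp.equivMapDomain (f.prodCongr f) M) := by
  unfold bil
  rw [Finsupp.equivMapDomain_eq_mapDomain, Finsupp.sum_mapDomain_index]
  · rfl
  · intro b
    rw [zero_smul]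
  · intro b m n
    rw [add_smul]

theorem emd_zero {p : ℕ} {B B' : Type} (f : B' ≃ B) (c : B' →₀ ZMod p)
    (h : Finsupp.equivMapDomain f c = 0) : c = 0 := by
  ext b
  have h1 := DFunLike.congr_fun h (f b)
  rw [Finsupp.equivMapDomain_apply, Equiv.symm_apply_apply] at h1
  simpa using h1

theorem pmap : S_pmap := by
  intro p _ A _ _ V E D1 D2 D1' D2' s z e1 e2 h
  have hf : ∀ b : Bx V E D1', Sum.map id e1 b =
      (Equiv.sumCongr (Equiv.refl ((V × Fin 3) ⊕ ({q : V × V // E q.1 q.2} × Fin 2))) e1) b := by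
    intro b
    cases b <;> rfl
  have hs : (fun b : Bx V E D1' => s (Sum.map id e1 b)) = fun b => s
      ((Equiv.sumCongr (Equiv.refl ((V × Fin 3) ⊕ ({q : V × V // E q.1 q.2} × Fin 2))) e1) b) := by
    funext b
    rw [hf b]
  have hinl : ∀ a, (Equiv.sumCongr (Equiv.refl ((V × Fin 3) ⊕ ({q : V × V // E q.1 q.2} × Fin 2)))
      e1) (Sum.inl a) = Sum.inl a := fun a => rfl
  rw [hs]
  generalize (Equiv.sumCongr (Equiv.refl ((V × Fin 3) ⊕ ({q : V × V // E q.1 q.2} × Fin 2))) e1)
    = f at hinl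
  have hinl' : ∀ a, f.symm (Sum.inl a) = Sum.inl a := fun a => by
    rw [Equiv.symm_apply_eq, hinl a]
  refine ⟨⟨fun v => ?_, fun v => ?_, fun q => ?_⟩, fun x => ?_, fun c hc => ?_,
    fun M h1 h2 h3 => ?_, fun d => h.zc (e2 d), fun c M hM => ?_, fun x hx => ?_⟩
  · simp only [hinl]
    exact h.pre.r1 v
  · simp only [hinl]
    exact h.pre.r2 v
  · simp only [hinl]
    exact h.pre.r3 q
  · obtain ⟨c, hc⟩ := h.span x
    refine ⟨Finsupp.equivMapDomain f.symm c, ?_⟩
    rw [lin_map, ← Finsupp.equivMapDomain_trans, Equiv.symm_trans_self,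
      Finsupp.equivMapDomain_refl]
    exact hc
  · rw [lin_map] at hc
    exact emd_zero f c (h.ind _ hc)
  · rw [bil_map] at h3
    refine emd_zero (f.prodCongr f) M (h.rel _ ⟨fun b => ?_, fun b b' => ?_⟩
      ⟨fun v => ?_, fun v => ?_, fun q => ?_⟩ h3)
    · rw [Finsupp.equivMapDomain_apply]
      exact h1.1 (f.symm b)
    · rw [Finsupp.equivMapDomain_apply, Finsupp.equivMapDomain_apply]
      exact h1.2 (f.symm b) (f.symm b')
    · rw [Finsupp.equivMapDomain_apply]
      have h4 := h2.1 v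
      rw [← hinl', ← hinl' (Sum.inl (v, 1))] at h4
      exact h4
    · rw [Finsupp.equivMapDomain_apply]
      have h4 := h2.2.1 v
      rw [← hinl', ← hinl' (Sum.inl (v, 2))] at h4
      exact h4
    · rw [Finsupp.equivMapDomain_apply]
      have h4 := h2.2.2 q
      rw [← hinl', ← hinl' (Sum.inr (q, 1))] at h4
      exact h4
  · rw [lin_map z e2, bil_map] at hM
    exact emd_zero e2 c (h.zi _ _ hM)
  · obtain ⟨c, M, hM⟩ := h.zs x hx
    refine ⟨Finsupp.equivMapDomain e2.symm c, Finsupp.equivMapDomain (f.prodCongr f).symm M, ?_⟩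
    rw [lin_map z e2, bil_map, ← Finsupp.equivMapDomain_trans, ← Finsupp.equivMapDomain_trans,
      Equiv.symm_trans_self, Equiv.symm_trans_self, Finsupp.equivMapDomain_refl,
      Finsupp.equivMapDomain_refl]
    exact hM

end Pool.Agent.H224.FV
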